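import Pool.Agent.TH25.AD.A8
import Pool.Agent.W656.VB6

/-!
Formal matrices: the constructions of the lamp machine commute with homomorphisms.
-/

set_option autoImplicit false
set_option linter.unusedSectionVars false

open scoped InnerProductSpace ENNReal ComplexConjugate
open Filter Topology

namespace Pool.Agent.V5helper65.OM

open Pool.Agent Pool.Agent.TH25.AD
open Pool.Agent.W656.VA
open Pool.Agent.H80R2
open Pool.Agent.H80R2.BC (L2 GMat vdim IsTr LInv Equi act kerA pt vals Coef)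
open Pool.Agent.H812R3

variable {ι ι' κ κ' ν ν' : Type} {Γ H : Type} [Group Γ] [Group H]

theorem push_bd (f : Γ → H) (A : GMat κ ι Γ) (A' : GMat κ' ι' Γ) :
    BC.push f (bd A A') = bd (BC.push f A) (BC.push f A') := by
  funext k i
  rcases k with k | k <;> rcases i with i | i
  · rfl
  · exact Finsupp.mapDomain_zero
  · exact Finsupp.mapDomain_zero
  · rfl

theorem mapDomain_neg' (f : Γ → H) (a : Γ →₀ ℂ) : (-a).mapDomain f = -(a.mapDomain f) := by
  have := map_neg (Finsupp.mapDomain.addMonoidHom f : (Γ →₀ ℂ) →+ (H →₀ ℂ)) a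
  exact this

theorem mapDomain_sub' (f : Γ → H) (a b : Γ →₀ ℂ) :
    (a - b).mapDomain f = a.mapDomain f - b.mapDomain f := by
  have := map_sub (Finsupp.mapDomain.addMonoidHom f : (Γ →₀ ℂ) →+ (H →₀ ℂ)) a b
  exact this

theorem push_sd (f : Γ → H) (B : GMat κ ι Γ) (C : GMat κ ν Γ) :
    BC.push f (sd B C) = sd (BC.push f B) (BC.push f C) := by
  funext k i
  rcases i with i | i
  · rfl
  · exact mapDomain_neg' f _

theorem push_conv (f : Γ →* H) (a b : Γ →₀ ℂ) :
    (conv a b).mapDomain f = conv (a.mapDomain f) (b.mapDomain f) := by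
  classical
  unfold conv
  rw [Finsupp.sum_mapDomain_index (by intro g; simp) (by intro g c e; rw [add_smul])]
  rw [Finsupp.sum, Finsupp.mapDomain_finset_sum]
  refine Finset.sum_congr rfl fun g _ => ?_
  show _ = a g • Finsupp.mapDomain (fun k => f g * k) (Finsupp.mapDomain f b)
  rw [Finsupp.mapDomain_smul, ← Finsupp.mapDomain_comp, ← Finsupp.mapDomain_comp]
  congr 2
  funext x
  exact map_mul f g x

theorem push_mulM [Fintype ι'] (f : Γ →* H) (B : GMat κ ι' Γ) (X : GMat ι' ι Γ) :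
    BC.push f (mulM B X) = mulM (BC.push f B) (BC.push f X) := by
  funext k i
  show (∑ j, conv (B k j) (X j i)).mapDomain f = ∑ j, conv ((B k j).mapDomain f) ((X j i).mapDomain f)
  rw [Finsupp.mapDomain_finset_sum]
  exact Finset.sum_congr rfl fun j _ => push_conv f _ _

theorem push_st (f : Γ →* H) (A : GMat κ ι Γ) : BC.push f (st A) = st (BC.push f A) := by
  classical
  funext i k
  show ((A k i).sum fun h c => Finsupp.single h⁻¹ (conj c)).mapDomain f =
    ((A k i).mapDomain f).sum fun h c => Finsupp.single h⁻¹ (conj c)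
  rw [Finsupp.sum_mapDomain_index (by intro g; simp) (by intro g c e; rw [map_add, Finsupp.single_add])]
  rw [Finsupp.sum, Finsupp.mapDomain_finset_sum]
  refine Finset.sum_congr rfl fun g _ => ?_
  rw [Finsupp.mapDomain_single, map_inv]

theorem push_idM (f : Γ →* H) : BC.push f (idM Γ) = idM H := by
  funext k i
  show (Finsupp.single (1 : Γ) (1 : ℂ)).mapDomain f = Finsupp.single 1 1
  rw [Finsupp.mapDomain_single, map_one]

theorem push_zero (f : Γ → H) : BC.push f (fun _ _ => 0 : GMat κ ι Γ) = fun _ _ => 0 := by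
  funext k i
  exact Finsupp.mapDomain_zero

theorem push_rw1 (f : Γ → H) (i : Fin 4) (a : Γ) : BC.push f (rw1 i a) = rw1 i (f a) := by
  funext u k
  show (rw1 i a u k).mapDomain f = rw1 i (f a) u k
  unfold rw1
  split_ifs
  · rw [Finsupp.mapDomain_single]
  · exact Finsupp.mapDomain_zero

theorem push_rw2 (f : Γ → H) (i j : Fin 4) (a b : Γ) :
    BC.push f (rw2 i j a b) = rw2 i j (f a) (f b) := by
  funext u k
  show (rw1 i a u k - rw1 j b u k).mapDomain f = rw1 i (f a) u k - rw1 j (f b) u k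
  rw [mapDomain_sub']
  have h1 := congrFun (congrFun (push_rw1 f i a) u) k
  have h2 := congrFun (congrFun (push_rw1 f j b) u) k
  change (rw1 i a u k).mapDomain f = _ at h1
  change (rw1 j b u k).mapDomain f = _ at h2
  rw [h1, h2]

theorem push_push {K : Type} [Group K] (f : Γ → H) (g : H → K) (A : GMat κ ι Γ) :
    BC.push g (BC.push f A) = BC.push (fun x => g (f x)) A := by
  funext k i
  exact Finsupp.mapDomain_comp.symm

theorem push_ri {κ₂ ι₂ : Type} (f : Γ → H) (e : κ₂ → κ) (e' : ι₂ ≃ ι) (A : GMat κ ι Γ) :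
    BC.push f (ri e e' A) = ri e e' (BC.push f A) := rfl

theorem push_Th {η μ : Type} (f : Γ → H) (u : ι → η → Γ) :
    BC.push f (BC.Th u : GMat (η × μ) (ι × μ) Γ) = BC.Th fun p q => f (u p q) := by
  classical
  funext a p
  show (BC.Th u a p).mapDomain f = BC.Th (fun p q => f (u p q)) a p
  unfold BC.Th
  split_ifs
  · rw [Finsupp.mapDomain_single]
  · exact Finsupp.mapDomain_zero

/-! ### families of subspaces defined by one formal system -/

section fam

variable {σ : Type} [Fintype ι] [Fintype ι']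

/-- The subspaces `E s` are defined by one formal system over `Γ`, with defect `d`. -/
def DF (R : Subring ℂ) (φ : σ → Γ →* H) (E : σ → Submodule ℂ (L2 (ι × H))) (d : ℝ) : Prop :=
  ∃ (κ ν : Type) (_ : Fintype κ) (_ : Fintype ν) (B : GMat κ ι Γ) (C : GMat κ ν Γ),
    Coef R B ∧ Coef R C ∧ ∀ s, vdim (kerA (BC.push (φ s) C)) = d ∧
      ∀ x, x ∈ E s ↔ op (BC.push (φ s) B) x ∈ clo (op (BC.push (φ s) C))

theorem DF.val {R : Subring ℂ} {φ : σ → Γ →* H} {E : σ → Submodule ℂ (L2 (ι × H))} {d : ℝ}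
    (h : DF R φ E d) : ∃ (m n : ℕ) (M : GMat (Fin n) (Fin m) Γ), Coef R M ∧
      ∀ s, vdim (kerA (BC.push (φ s) M)) = vdim (E s) + d := by
  obtain ⟨κ, ν, _, _, B, C, hB, hC, hE⟩ := h
  refine ⟨Fintype.card (ι ⊕ ν), Fintype.card κ,
    ri (Fintype.equivFin κ).symm (Fintype.equivFin (ι ⊕ ν)).symm (sd B C), ?_, ?_⟩
  · intro k i h
    exact coef_sd hB hC _ _ _
  · intro s
    obtain ⟨h1, h2⟩ := hE s
    have e : E s = pre (BC.push (φ s) B) (BC.push (φ s) C) := by
      ext x
      rw [h2, mem_pre]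
    rw [push_ri, vdim_ri (Fintype.equivFin κ).symm, push_sd, vdim_sd, h1, e]

theorem DF.inf {R : Subring ℂ} {φ : σ → Γ →* H} {E E' : σ → Submodule ℂ (L2 (ι × H))} {d d' : ℝ}
    (h : DF R φ E d) (h' : DF R φ E' d') : DF R φ (fun s => E s ⊓ E' s) (d + d') := by
  obtain ⟨κ, ν, _, _, B, C, hB, hC, hE⟩ := h
  obtain ⟨κ', ν', _, _, B', C', hB', hC', hE'⟩ := h'
  refine ⟨κ ⊕ κ', ν ⊕ ν', inferInstance, inferInstance, BC.stack B B', bd C C',
    coef_stack hB hB', coef_bd hC hC', fun s => ⟨?_, ?_⟩⟩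
  · rw [push_bd, vdim_bd, (hE s).1, (hE' s).1]
  · intro x
    rw [Submodule.mem_inf, (hE s).2, (hE' s).2, push_bd, push_stack, mem_clo_bd, pl1_stack,
      pl2_stack]

theorem DF.comap {R : Subring ℂ} {φ : σ → Γ →* H} {E : σ → Submodule ℂ (L2 (ι' × H))} {d : ℝ}
    (h : DF R φ E d) {X : GMat ι' ι Γ} (hX : Coef R X) :
    DF R φ (fun s => (E s).comap (op (BC.push (φ s) X) : L2 (ι × H) →ₗ[ℂ] L2 (ι' × H))) d := by
  obtain ⟨κ, ν, _, _, B, C, hB, hC, hE⟩ := h
  refine ⟨κ, ν, inferInstance, inferInstance, mulM B X, C, coef_mulM hB hX, hC,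
    fun s => ⟨(hE s).1, ?_⟩⟩
  intro x
  rw [push_mulM, op_mulM]
  exact (hE s).2 (op _ x)

variable [Fintype κ]

theorem dfn_lampP_aux {A : GMat κ ι H} {T : GMat Unit ι H} (h : kerA A ⊓ kerA T = ⊥) :
    vdim (kerA (BC.stack T A)) = 0 ∧ ∀ x, x ∈ lampP A T ↔
      op (BC.stack (idM H) (fun _ _ => 0) : GMat (Unit ⊕ κ) Unit H) x ∈ clo (op (BC.stack T A)) := by
  set B : GMat (Unit ⊕ κ) Unit H := BC.stack (idM H) (fun _ _ => 0) with hB
  set C : GMat (Unit ⊕ κ) ι H := BC.stack T A with hC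
  have hkC : kerA C = ⊥ := by
    rw [hC, kerA_stack, inf_comm, h]
  have hkC0 : vdim (kerA C) = 0 := by rw [hkC, vdim_bot]
  have h1 : lampP A T ≤ pre B C := by
    apply Submodule.topologicalClosure_minimal _ _ (closed_pre B C)
    rintro _ ⟨s, hs, rfl⟩
    rw [mem_pre]
    have e : op B (op T s) = op C s := by
      apply ext_pl
      · rw [hB, hC, pl1_stack, pl1_stack, op_idM]
      · rw [hB, hC, pl2_stack, pl2_stack, op_zero]
        have hs' : s ∈ kerA A := hs
        rw [kerA_eq, mem_kr] at hs'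
        exact hs'.symm
    show op B (op T s) ∈ clo (op C)
    rw [e]
    exact mem_clo _ _
  have h2 : vdim (kerA (sd B C)) ≤ vdim (kerA A) := by
    have key : ∀ x ∈ kerA (sd B C), pl1 Unit ι H x = op T (pl2 Unit ι H x) ∧
        op A (pl2 Unit ι H x) = 0 := by
      intro x hx
      rw [kerA_eq, mem_kr, op_sd, sub_eq_zero] at hx
      constructor
      · have := congrArg (pl1 Unit κ H) hx
        rwa [hB, hC, pl1_stack, pl1_stack, op_idM] at this
      · have := congrArg (pl2 Unit κ H) hx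
        rw [hB, hC, pl2_stack, pl2_stack, op_zero] at this
        exact this.symm
    refine vdim_inj_le (isClosed_kerA _) (linv_kerA _) (pl2 Unit ι H) equi_pl2 (isClosed_kerA A)
      ?_ ?_
    · intro x hx
      rw [kerA_eq, mem_kr]
      exact (key x hx).2
    · intro x hx h0
      apply ext_pl
      · rw [(key x hx).1, h0, map_zero, map_zero]
      · rw [h0, map_zero]
  rw [vdim_sd, hkC0, add_zero, ← vdim_lampP A T h] at h2
  have h3 := eq_of_vdim (closed_lampP A T) (linv_lampP A T) (closed_pre B C) (linv_pre B C) h1 h2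
  refine ⟨hkC0, ?_⟩
  intro x
  rw [h3, mem_pre]

theorem df_lampP {R : Subring ℂ} {φ : σ → Γ →* H} {A : GMat κ ι Γ} {T : GMat Unit ι Γ}
    (hA : Coef R A) (hT : Coef R T)
    (h : ∀ s, kerA (BC.push (φ s) A) ⊓ kerA (BC.push (φ s) T) = ⊥) :
    DF R φ (fun s => lampP (BC.push (φ s) A) (BC.push (φ s) T)) 0 := by
  refine ⟨Unit ⊕ κ, ι, inferInstance, inferInstance, BC.stack (idM Γ) (fun _ _ => 0),
    BC.stack T A, ?_, coef_stack hT hA, ?_⟩
  · apply coef_stack
    · intro k i g
      exact coef_single _ _ R.one_mem _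
    · intro k i g
      exact R.zero_mem
  · intro s
    rw [push_stack, push_stack, push_idM, push_zero]
    exact dfn_lampP_aux (h s)

theorem df_lampP_orth {R : Subring ℂ} (hR : ∀ c ∈ R, conj c ∈ R) {φ : σ → Γ →* H}
    {A : GMat κ ι Γ} {T : GMat Unit ι Γ} (hA : Coef R A) (hT : Coef R T) {v : ℝ}
    (hv : ∀ s, vdim (kerA (BC.push (φ s) A)) = v) :
    DF R φ (fun s => (lampP (BC.push (φ s) A) (BC.push (φ s) T))ᗮ)
      (Fintype.card κ - Fintype.card ι + v) := by
  refine ⟨ι, κ, inferInstance, inferInstance, st T, st A, coef_st hR hT, coef_st hR hA, ?_⟩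
  intro s
  rw [push_st, push_st]
  constructor
  · have h := vdim_ker_adjoint (op (BC.push (φ s) A)) (equi_op (BC.push (φ s) A))
    rw [← op_st, ← kerA_eq, ← kerA_eq, hv s] at h
    linarith
  · intro y
    show y ∈ (lampP (BC.push (φ s) A) (BC.push (φ s) T))ᗮ ↔ _
    rw [op_st, op_st]
    have h1 : clo (ContinuousLinearMap.adjoint (op (BC.push (φ s) A))) =
        (kerA (BC.push (φ s) A))ᗮ := by
      rw [kerA_eq]
      exact (ContinuousLinearMap.orthogonal_ker (op (BC.push (φ s) A))).symm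
    rw [h1, lampP, Submodule.orthogonal_closure, Submodule.mem_orthogonal,
      Submodule.mem_orthogonal]
    constructor
    · intro h s' hs
      rw [ContinuousLinearMap.adjoint_inner_right]
      exact h _ ⟨s', hs, rfl⟩
    · rintro h _ ⟨s', hs, rfl⟩
      have := h s' hs
      rw [ContinuousLinearMap.adjoint_inner_right] at this
      exact this

end fam

end Pool.Agent.V5helper65.OM
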