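import Pool.Agent.V5helper65.OM.F1

/-!
One formal matrix for all machines; one formal matrix whose kernel dimensions fill an interval.
-/

set_option autoImplicit false
set_option linter.unusedSectionVars false

open scoped InnerProductSpace ENNReal ComplexConjugate
open Filter Topology

namespace Pool.Agent.V5helper65.OM

open Pool.Agent Pool.Agent.TH25.AD
open Pool.Agent.W656.VA
open Pool.Agent.H80R2
open Pool.Agent.H80R2.BC (L2 GMat vdim IsTr LInv Equi act kerA pt vals Coef)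
open Pool.Agent.H812R3

section sol

variable {Γ H σ : Type} [Group Γ] [Group H]

theorem df_Sol (M : σ → Mach H) {R : Subring ℂ} {φ : σ → Γ →* H} {d : ℝ} (f g h : Γ)
    (hf : ∀ s, (M s).f = φ s f) (hg : ∀ s, (M s).g = φ s g) (hh : ∀ s, (M s).h = φ s h)
    (hP : DF R φ (fun s => (M s).P) 0) (hN : DF R φ (fun s => (M s).Pᗮ) d) :
    DF R φ (fun s => (M s).Sol) (4 * d) := by
  have hZ : ∀ i : Fin 4, DF R φ (fun s => ((M s).Pᗮ).comap
      (op (BC.push (φ s) (rw2 i i 1 f)) : L2 (Fin 4 × H) →ₗ[ℂ] L2 (Unit × H))) d :=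
    fun i => hN.comap (coef_rw2 _ _ _ _)
  have h1 : DF R φ (fun s => ((M s).P).comap
      (op (BC.push (φ s) (rw2 2 0 1 g)) : L2 (Fin 4 × H) →ₗ[ℂ] L2 (Unit × H))) 0 :=
    hP.comap (coef_rw2 _ _ _ _)
  have h2 : DF R φ (fun s => ((M s).P).comap
      (op (BC.push (φ s) (rw2 3 1 1 g)) : L2 (Fin 4 × H) →ₗ[ℂ] L2 (Unit × H))) 0 :=
    hP.comap (coef_rw2 _ _ _ _)
  have h3 : DF R φ (fun s => ((M s).P).comap
      (op (BC.push (φ s) (rw2 1 0 f (f * h))) : L2 (Fin 4 × H) →ₗ[ℂ] L2 (Unit × H))) 0 :=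
    hP.comap (coef_rw2 _ _ _ _)
  have h4 : DF R φ (fun s => ((M s).P).comap
      (op (BC.push (φ s) (rw2 3 2 f (f * h))) : L2 (Fin 4 × H) →ₗ[ℂ] L2 (Unit × H))) 0 :=
    hP.comap (coef_rw2 _ _ _ _)
  have h5 := ((((hZ 0).inf (hZ 1)).inf (hZ 2)).inf (hZ 3)).inf ((h1.inf h2).inf (h3.inf h4))
  have e1 : d + d + d + d + (0 + 0 + (0 + 0)) = 4 * d := by ring
  rw [e1] at h5
  convert h5 using 2 with s
  ext x
  simp only [Submodule.mem_inf, Submodule.mem_comap, ContinuousLinearMap.coe_coe, push_rw2,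
    op_rw2, map_one, map_mul, U_one, U_mul, ← map_sub, ← hf, ← hg, ← hh]
  rw [(M s).mem_Sol]
  constructor
  · rintro ⟨k1, ⟨k2, k3⟩, k4, k5⟩
    exact ⟨⟨⟨⟨k1 0, k1 1⟩, k1 2⟩, k1 3⟩, ⟨k2, k3⟩, k4, k5⟩
  · rintro ⟨⟨⟨⟨a0, a1⟩, a2⟩, a3⟩, ⟨k2, k3⟩, k4, k5⟩
    refine ⟨?_, ⟨k2, k3⟩, k4, k5⟩
    intro i
    fin_cases i
    · exact a0
    · exact a1
    · exact a2
    · exact a3

end sol

section value

variable {G : Type} [Group G]

/-- the formal group -/
abbrev Fo (G : Type) [Group G] : Type := Monoid.Coprod G (FreeGroup (Fin 3))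

/-- the images of the three letters -/
noncomputable def letters (G : Type) [Group G] (S : Set ℕ) : Fin 3 → Hg G :=
  ![(Wr.t : Hg G), gg G S, hh G]

/-- the homomorphism of the formal group to the group of the machine, for the set `S` -/
noncomputable def fo (G : Type) [Group G] (S : Set ℕ) : Fo G →* Hg G :=
  Monoid.Coprod.lift (inc G) (FreeGroup.lift (letters G S))

theorem fo_inl (S : Set ℕ) (x : G) : fo G S (Monoid.Coprod.inl x) = inc G x := by
  unfold fo
  exact Monoid.Coprod.lift_apply_inl _ _ x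

theorem fo_inr (S : Set ℕ) (i : Fin 3) :
    fo G S (Monoid.Coprod.inr (FreeGroup.of i)) = letters G S i := by
  unfold fo
  rw [Monoid.Coprod.lift_apply_inr, FreeGroup.lift_apply_of]

/-- **One formal matrix for all sets `S`.** -/
theorem value_formal {R : Subring ℂ} (hR : ∀ c ∈ R, conj c ∈ R) (hG : TF G)
    {ι κ : Type} [Fintype ι] [Fintype κ] (A : GMat κ ι G) (T : GMat Unit ι G) (hA : Coef R A)
    (hT : Coef R T) (h : kerA A ⊓ kerA T = ⊥) (h1 : vdim (kerA A) < 1) :
    ∃ (m n : ℕ) (M : GMat (Fin n) (Fin m) (Fo G)), Coef R M ∧ ∀ (S : Set ℕ)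
      [DecidablePred (· ∈ S)],
      ∃ w : ℝ, HasSum (fun n : ℕ => if n ∈ S then (1 - vdim (kerA A)) ^ 2 * vdim (kerA A) ^ n else 0)
        w ∧ vdim (kerA (BC.push (fo G S) M)) =
          w + 4 * (Fintype.card κ - Fintype.card ι + vdim (kerA A)) := by
  classical
  set A1 : GMat κ ι (Fo G) := BC.push (Monoid.Coprod.inl : G →* Fo G) A with hA1
  set T1 : GMat Unit ι (Fo G) := BC.push (Monoid.Coprod.inl : G →* Fo G) T with hT1
  set A2 := BC.push (inc G) A with hA2
  set T2 := BC.push (inc G) T with hT2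
  have eA : ∀ S : Set ℕ, BC.push (fo G S) A1 = A2 := by
    intro S
    rw [hA1, push_push, hA2]
    congr 1
  have eT : ∀ S : Set ℕ, BC.push (fo G S) T1 = T2 := by
    intro S
    rw [hT1, push_push, hT2]
    congr 1
  have hv : vdim (kerA A2) = vdim (kerA A) := vdim_push (inc G) inc_inj A
  have hbot : kerA A2 ⊓ kerA T2 = ⊥ := by
    rw [hA2, hT2, ← kerA_stack, ← push_stack]
    apply eq_bot_of_vdim (isClosed_kerA _) (linv_kerA _)
    rw [vdim_push (inc G) inc_inj, kerA_stack, h, vdim_bot]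
  have hsupp : ∀ (a : G →₀ ℂ), ∀ x ∈ (a.mapDomain (inc G)).support, x ∈ DIg G {0} := by
    intro a x hx
    have := Finsupp.mapDomain_support hx
    rw [Finset.mem_image] at this
    obtain ⟨y, _, rfl⟩ := this
    exact inc_mem y
  have hloc : Loc (DIg G {0}) (lampP A2 T2) :=
    loc_lampP _ (fun k i x hx => hsupp _ x hx) (fun k i x hx => hsupp _ x hx)
  set M : Set ℕ → Mach (Hg G) := fun S => mach G S (lampP A2 T2) (closed_lampP A2 T2) hloc with hM
  have hα : ∀ S, (M S).α = vdim (kerA A) := by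
    intro S
    rw [← hv]
    exact vdim_lampP A2 T2 hbot
  have d1 : DF R (fo G) (fun S => (M S).P) 0 := by
    have := df_lampP (φ := fo G) (coef_push (Monoid.Coprod.inl : G →* Fo G) A hA)
      (coef_push (Monoid.Coprod.inl : G →* Fo G) T hT) (by
        intro S
        rw [← hA1, ← hT1, eA, eT]
        exact hbot)
    rw [← hA1, ← hT1] at this
    simp only [eA, eT] at this
    exact this
  have d2 : DF R (fo G) (fun S => (M S).Pᗮ)
      (Fintype.card κ - Fintype.card ι + vdim (kerA A)) := by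
    have := df_lampP_orth hR (φ := fo G) (v := vdim (kerA A))
      (coef_push (Monoid.Coprod.inl : G →* Fo G) A hA)
      (coef_push (Monoid.Coprod.inl : G →* Fo G) T hT) (by
        intro S
        rw [← hA1, eA]
        exact hv)
    rw [← hA1, ← hT1] at this
    simp only [eA, eT] at this
    exact this
  have d3 := df_Sol M (φ := fo G) (Monoid.Coprod.inr (FreeGroup.of 0))
    (Monoid.Coprod.inr (FreeGroup.of 1)) (Monoid.Coprod.inr (FreeGroup.of 2))
    (fun S => (fo_inr S 0).symm) (fun S => (fo_inr S 1).symm) (fun S => (fo_inr S 2).symm) d1 d2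
  obtain ⟨m, n, N, hN, hval⟩ := d3.val
  refine ⟨m, n, N, hN, ?_⟩
  intro S _
  have h3 := (M S).vdim_Sol (by rw [hα]; exact h1) S
    (fun n hn => mach_good S _ (closed_lampP A2 T2) hloc n hn) (by
      intro n hn k hk hc
      refine mach_bad S _ (closed_lampP A2 T2) hloc n hn ?_
      have h4 := tf_Hg hG _ k hk hc
      have h5 := inv_mul_eq_one.1 h4
      exact h5.symm)
  rw [hα] at h3
  refine ⟨vdim (M S).Sol, h3, ?_⟩
  rw [hval S]

end value

/-- One formal matrix over a group `Γ`, with coefficients in `R`, has all numbers of the interval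
`[a, b]` as kernel dimensions, under homomorphisms to groups of the class `C`. -/
def FV (C : (G : Type) → [Group G] → Prop) (R : Subring ℂ) (a b : ℝ) : Prop :=
  ∃ (Γ : Type) (_ : Group Γ) (m n : ℕ) (M : GMat (Fin n) (Fin m) Γ), Coef R M ∧
    ∀ r : ℝ, a ≤ r → r ≤ b → ∃ (H : Type) (_ : Group H) (φ : Γ →* H), C H ∧
      vdim (kerA (BC.push φ M)) = r

section FVs

variable {C : (G : Type) → [Group G] → Prop} {R : Subring ℂ}

theorem FV.mono {a b a' b' : ℝ} (h : FV C R a b) (ha : a ≤ a') (hb : b' ≤ b) : FV C R a' b' := by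
  obtain ⟨Γ, _, m, n, M, hM, hr⟩ := h
  exact ⟨Γ, inferInstance, m, n, M, hM, fun r h1 h2 => hr r (ha.trans h1) (h2.trans hb)⟩

/-- an interval of values of one formal matrix -/
theorem FV.interval (hC : Cls C) (hR : ∀ c ∈ R, conj c ∈ R) {α : ℝ} (h : VV C R α)
    (h1 : 1 / 2 ≤ α) (h2 : α < 1) : ∃ D : ℝ, FV C R D (D + (1 - α)) := by
  classical
  obtain ⟨G, _, hG, hv⟩ := h
  obtain ⟨m, ι, κ, _, _, A, T, hA, hT, hAT, hvA⟩ := lamp_exists hv h2
  have hG' := hC.free G m hG
  have htf : TF (Monoid.Coprod G (FreeGroup (Fin m))) := hC.tf _ hG'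
  obtain ⟨m', n', M, hM, hval⟩ := value_formal hR htf A T hA hT hAT (by rw [hvA]; exact h2)
  refine ⟨4 * (Fintype.card κ - Fintype.card ι + vdim (kerA A)), _, inferInstance, m', n', M, hM,
    ?_⟩
  intro r' hr0' hr1'
  set D := 4 * ((Fintype.card κ : ℝ) - Fintype.card ι + vdim (kerA A)) with hD
  set r := r' - D with hrdef
  have hr0 : 0 ≤ r := by linarith
  have hr1 : r ≤ 1 - α := by linarith
  have h3 : 0 < 1 - α := by linarith
  have h4 : (1 - α) ^ 2 ≠ 0 := by positivity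
  have h5 := greedy h1 h2 (t := r / (1 - α) ^ 2) (by positivity) (by
    rw [div_le_div_iff₀ (by positivity) h3]
    nlinarith)
  set S : Set ℕ := {n | 1 ≤ rem α (r / (1 - α) ^ 2) n} with hS
  obtain ⟨w, hw, hval⟩ := hval S
  have h6 : HasSum (fun n : ℕ => if n ∈ S then (1 - vdim (kerA A)) ^ 2 * vdim (kerA A) ^ n
      else 0) r := by
    have h7 := h5.mul_left ((1 - α) ^ 2)
    have e1 : (1 - α) ^ 2 * (r / (1 - α) ^ 2) = r := by field_simp
    rw [e1] at h7
    have e3 : (fun n : ℕ => if n ∈ S then (1 - α) ^ 2 * α ^ n else 0)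
        = fun n : ℕ => (1 - α) ^ 2 * (if 1 ≤ rem α (r / (1 - α) ^ 2) n then α ^ n else 0) := by
      funext n
      by_cases hn : 1 ≤ rem α (r / (1 - α) ^ 2) n
      · rw [if_pos hn, if_pos (show n ∈ S from hn)]
      · rw [if_neg hn, if_neg (show n ∉ S from hn), mul_zero]
    rw [hvA, e3]
    exact h7
  rw [hw.unique h6] at hval
  refine ⟨_, inferInstance, fo _ S, hC.hg hG', ?_⟩
  rw [hval]
  linarith

/-- direct sums of copies -/
theorem copies {Γ : Type} [Group Γ] {m n : ℕ} {M : GMat (Fin n) (Fin m) Γ} (hM : Coef R M)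
    (k : ℕ) : ∃ (m' n' : ℕ) (M' : GMat (Fin n') (Fin m') Γ), Coef R M' ∧
      ∀ (H : Type) [Group H] (φ : Γ →* H),
        vdim (kerA (BC.push φ M')) = k * vdim (kerA (BC.push φ M)) := by
  induction k with
  | zero =>
    refine ⟨0, 0, fun _ _ => 0, fun k => k.elim0, ?_⟩
    intro H _ φ
    unfold vdim
    simp
  | succ k ih =>
    obtain ⟨m', n', M', hM', h⟩ := ih
    refine ⟨Fintype.card (Fin m' ⊕ Fin m), Fintype.card (Fin n' ⊕ Fin n),
      ri (Fintype.equivFin (Fin n' ⊕ Fin n)).symm (Fintype.equivFin (Fin m' ⊕ Fin m)).symm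
        (bd M' M), ?_, ?_⟩
    · intro k i h
      exact coef_bd hM' hM _ _ _
    · intro H _ φ
      rw [push_ri, vdim_ri (Fintype.equivFin (Fin n' ⊕ Fin n)).symm, push_bd, vdim_bd, h]
      push_cast
      ring

theorem FV.nsmul {a b : ℝ} (h : FV C R a b) (k : ℕ) (hk : 0 < k) : FV C R (k * a) (k * b) := by
  obtain ⟨Γ, _, m, n, M, hM, hr⟩ := h
  obtain ⟨m', n', M', hM', h'⟩ := copies hM k
  have hk' : (0 : ℝ) < k := by exact_mod_cast hk
  refine ⟨Γ, inferInstance, m', n', M', hM', ?_⟩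
  intro r h1 h2
  obtain ⟨H, _, φ, hH, hv⟩ := hr (r / k) (by rw [le_div_iff₀ hk']; linarith)
    (by rw [div_le_iff₀ hk']; linarith)
  refine ⟨H, inferInstance, φ, hH, ?_⟩
  rw [h' H φ, hv]
  field_simp

/-- the dimension of the generic cut -/
theorem vdim_cut {G G' : Type} [Group G] [Group G'] {m n j : ℕ}
    (inc : G →* G') (hinj : Function.Injective inc) (u : Fin m → Fin j → G')
    (hgen : BC.Generic inc u) (A : GMat (Fin n) (Fin m × Unit) G) (hj : (j : ℝ) ≤ vdim (kerA A)) :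
    vdim (kerA (BC.Cut inc u A)) = vdim (kerA A) - j := by
  have h1 := cut_eq inc hinj u hgen A
  have h2 := cut_ge inc hinj u A ⊤
  set Z := kerA (BC.Cut inc u A) with hZdef
  set Φ := vals Z with hΦ
  have ftop : fd A ⊤ = vdim (kerA A) := by
    unfold fd
    congr 1
    exact inf_eq_left.2 (fun x _ p g => trivial)
  have h3 : vdim (Z ⊓ pt ⊤) ≤ vdim Z := vdim_mono inf_le_left
  rw [ftop, finrank_top, Module.finrank_fintype_fun_eq_card] at h2
  simp only [Fintype.card_fin, Fintype.card_unit, Nat.cast_one, mul_one] at h2 h1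
  have h4 : Module.finrank ℂ Φ ≤ 1 := by
    have := Submodule.finrank_le Φ
    rwa [Module.finrank_fintype_fun_eq_card, Fintype.card_unit] at this
  have h5 : fd A Φ ≤ vdim (kerA A) := vdim_mono inf_le_left
  rcases Nat.le_one_iff_eq_zero_or_eq_one.1 h4 with h6 | h6
  · have h7 : Φ = ⊥ := Submodule.finrank_eq_zero.1 h6
    have h8 : fd A Φ = 0 := by
      unfold fd
      rw [h7]
      have : kerA A ⊓ pt ⊥ = ⊥ := by
        rw [eq_bot_iff]
        rintro x ⟨_, hx⟩
        rw [Submodule.mem_bot]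
        ext ⟨⟨p, i⟩, g⟩
        exact congrFun ((Submodule.mem_bot ℂ).1 (hx p g)) i
      rw [this, vdim_bot]
    rw [h8, h6] at h1
    simp only [Nat.cast_zero, mul_zero, sub_zero] at h1
    linarith
  · rw [h6] at h1
    simp only [Nat.cast_one, mul_one] at h1
    linarith

theorem FV.cut (hC : Cls C) {a b : ℝ} (h : FV C R a b) (j : ℕ) (hj : (j : ℝ) ≤ a) :
    FV C R (a - j) (b - j) := by
  obtain ⟨Γ, _, m, n, M, hM, hr⟩ := h
  set e : Fin m × Fin j ≃ Fin (m * j) := finProdFinEquiv with he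
  set M' : GMat (Fin n) (Fin m × Unit) Γ := ri (Equiv.refl _) (Equiv.prodPUnit (Fin m)) M with hM'
  have hMc : Coef R M' := fun k i h => hM _ _ _
  set F := FreeGroup (Fin (m * j)) with hF
  set u : (X : Type) → [Group X] → Fin m → Fin j → Monoid.Coprod X F := fun X _ p q =>
    (Monoid.Coprod.inr : F →* Monoid.Coprod X F) (FreeGroup.of (e (p, q))) with hu
  set N : GMat (Fin n ⊕ (Fin j × Unit)) (Fin m × Unit) (Monoid.Coprod Γ F) :=
    BC.Cut (Monoid.Coprod.inl : Γ →* Monoid.Coprod Γ F) (u Γ) M' with hN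
  have hNc : Coef R N := coef_Cut _ _ hMc
  refine ⟨Monoid.Coprod Γ F, inferInstance, Fintype.card (Fin m × Unit),
    Fintype.card (Fin n ⊕ (Fin j × Unit)),
    ri (Fintype.equivFin _).symm (Fintype.equivFin (Fin m × Unit)).symm N,
    fun k i h => hNc _ _ _, ?_⟩
  intro r h1 h2
  obtain ⟨H, _, φ, hH, hv⟩ := hr (r + j) (by linarith) (by linarith)
  set ψ : Monoid.Coprod Γ F →* Monoid.Coprod H F := Monoid.Coprod.map φ (MonoidHom.id F) with hψ
  refine ⟨Monoid.Coprod H F, inferInstance, ψ, hC.free H _ hH, ?_⟩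
  rw [push_ri, vdim_ri (Fintype.equivFin (Fin n ⊕ (Fin j × Unit))).symm]
  have e1 : BC.push ψ N = BC.Cut (Monoid.Coprod.inl : H →* Monoid.Coprod H F) (u H)
      (BC.push φ M') := by
    rw [hN]
    unfold BC.Cut
    rw [push_stack, push_Th, push_push, push_push]
    congr 1
  rw [e1, vdim_cut (Monoid.Coprod.inl : H →* Monoid.Coprod H F) Monoid.Coprod.inl_injective (u H)
    (BC.generic_coprod H (m * j) e)]
  · have e2 : vdim (kerA (BC.push φ M')) = vdim (kerA (BC.push φ M)) := by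
      rw [hM', push_ri]
      exact vdim_ri (Equiv.refl (Fin n)) _ _
    rw [e2, hv]
    ring
  · have e2 : vdim (kerA (BC.push φ M')) = vdim (kerA (BC.push φ M)) := by
      rw [hM', push_ri]
      exact vdim_ri (Equiv.refl (Fin n)) _ _
    rw [e2, hv]
    linarith

/-- **One formal matrix with all kernel dimensions between zero and one.** -/
theorem FV.all (hC : Cls C) (hR : ∀ c ∈ R, conj c ∈ R) (h : ∀ r : ℝ, 0 ≤ r → VV C R r) :
    FV C R 0 1 := by
  obtain ⟨D, hD⟩ := FV.interval hC hR (h (1 / 2) (by norm_num)) le_rfl (by norm_num)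
  have hD0 : 0 ≤ D := by
    obtain ⟨Γ, _, m, n, M, hM, hr⟩ := hD
    obtain ⟨H, _, φ, _, hv⟩ := hr D le_rfl (by norm_num)
    rw [← hv]
    exact vdim_nonneg _
  have h4 := hD.nsmul 4 (by norm_num)
  have h5 : FV C R ⌈4 * D⌉₊ (⌈4 * D⌉₊ + 1) := by
    refine h4.mono ?_ ?_
    · push_cast
      exact Nat.le_ceil _
    · have := Nat.ceil_lt_add_one (a := 4 * D) (by positivity)
      push_cast
      linarith
  have h6 := h5.cut hC ⌈4 * D⌉₊ le_rfl
  rwa [sub_self, add_sub_cancel_left] at h6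

end FVs

end Pool.Agent.V5helper65.OM
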