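import Pool.Agent.V5helper65.OM.F2

/-!
From one formal matrix to one pencil of integer matrices.
-/

set_option autoImplicit false
set_option linter.unusedSectionVars false

open scoped InnerProductSpace ENNReal ComplexConjugate
open Filter Topology

namespace Pool.Agent.V5helper65.OM

open Pool.Agent Pool.Agent.TH25.AD
open Pool.Agent.W656.VA
open Pool.Agent.H80R2
open Pool.Agent.H80R2.BC (L2 GMat vdim IsTr LInv Equi act kerA pt vals Coef)
open Pool.Agent.H812R3

/-- the matrix `∑ N k g k` -/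
noncomputable def pencil {G : Type} [Group G] {m n d : ℕ} (N : Fin d → Matrix (Fin m) (Fin n) ℤ)
    (g : Fin d → G) : Matrix (Fin m) (Fin n) (G →₀ ℂ) :=
  fun i j => ∑ k, Finsupp.single (g k) (N k i j : ℂ)

theorem cv_pencil {G : Type} [Group G] {m n d : ℕ} (N : Fin d → Matrix (Fin m) (Fin n) ℤ)
    (g : Fin d → G) (j : Fin n) (i : Fin m) :
    cv (pencil N g) j i = ∑ k, Finsupp.single (g k)⁻¹ (N k i j : ℂ) := by
  show (∑ k, Finsupp.single (g k) (N k i j : ℂ)).mapDomain (fun g => g⁻¹) = _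
  rw [Finsupp.mapDomain_finset_sum]
  exact Finset.sum_congr rfl fun k _ => Finsupp.mapDomain_single

/-- a formal matrix with integer coefficients as a pencil -/
theorem exists_pencil {Γ : Type} [Group Γ] {m n : ℕ} (M : GMat (Fin n) (Fin m) Γ)
    (hM : Coef (⊥ : Subring ℂ) M) : ∃ (d : ℕ) (N : Fin d → Matrix (Fin m) (Fin n) ℤ),
      ∀ (H : Type) [Group H] (φ : Γ →* H), ∃ g : Fin d → H,
        W656.VA.kerDim (pencil N g) = vdim (kerA (BC.push φ M)) := by
  classical
  set s : Finset Γ := Finset.univ.biUnion fun k : Fin n =>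
    Finset.univ.biUnion fun i : Fin m => (M k i).support with hs
  have hsub : ∀ k i, (M k i).support ⊆ s := by
    intro k i x hx
    rw [hs, Finset.mem_biUnion]
    refine ⟨k, Finset.mem_univ _, ?_⟩
    rw [Finset.mem_biUnion]
    exact ⟨i, Finset.mem_univ _, hx⟩
  have hint : ∀ (k : Fin n) (i : Fin m) (x : Γ), ∃ z : ℤ, M k i x = z := by
    intro k i x
    obtain ⟨z, hz⟩ := Subring.mem_bot.1 (hM k i x)
    exact ⟨z, hz.symm⟩
  choose Z hZ using hint
  set e := s.equivFin with he
  refine ⟨s.card, fun l i j => Z j i (e.symm l), ?_⟩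
  intro H _ φ
  refine ⟨fun l => (φ (e.symm l))⁻¹, ?_⟩
  rw [W656.VA.kerDim_eq]
  congr 2
  funext j i
  rw [cv_pencil]
  show _ = (M j i).mapDomain φ
  have h1 : (M j i) = ∑ x ∈ s, Finsupp.single x (M j i x) := by
    conv_lhs => rw [← Finsupp.sum_single (M j i)]
    rw [Finsupp.sum]
    apply Finset.sum_subset (hsub j i)
    intro x _ hx
    rw [Finsupp.notMem_support_iff.1 hx, Finsupp.single_zero]
  conv_rhs => rw [h1]
  rw [Finsupp.mapDomain_finset_sum, ← Finset.sum_coe_sort s, ← Equiv.sum_comp e.symm]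
  refine Finset.sum_congr rfl fun l _ => ?_
  rw [Finsupp.mapDomain_single, hZ, inv_inv]

end Pool.Agent.V5helper65.OM
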